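import Pool.Agent.T9h81.NL.Paths

/-!
# Symmetry breaking on the Nishimori line of `ℤ^d` with a bias of order `1 / √d`

For independent couplings on `ℤ^d`, `d ≥ 12`, whose laws satisfy Nishimori's condition
`ν(-dx) = exp (-2 β x) ν(dx)` at the inverse temperature `β` and `E tanh (β J) ≥ 1 / (d - 1)`, almost
surely some Gibbs state at `(β, J)` is not invariant under the global spin flip.  For the couplings
`±1` with `P(J = 1) = (1 + m) / 2` this is the temperature `tanh β = m`, and the condition is
`m ≥ 1 / √(d - 1)`.

Proof.  By Nishimori's gauge identities and the Cauchy–Schwarz inequality the mean magnetisation at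
the origin with plus boundary condition is at least `(E T)² / E T²` for every gauge covariant function
`T` of the couplings.  `T` is the sum over oriented paths from the origin of the products of
`tanh (β J_e) / E tanh (β J_e)`; the second moment is a generating function of the number of common
edges of two independent oriented random walks, which is bounded by a supersolution.  A zero-one law
gives almost sure symmetry breaking.
-/

set_option autoImplicit false

open MeasureTheory ProbabilityTheory
open scoped ENNReal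

namespace Pool.Agent.Results.MP_81d17b_pr.NishimoriLine

open Pool.T9h81.EAR Pool.T9h81.NL

/-- Some Gibbs state at `(β, J)` is not invariant under the global spin flip `σ ↦ -σ` (its image,
which is again a Gibbs state, is different); in particular there is more than one Gibbs state. -/
def SymmetryBroken {V : Type} {G : SimpleGraph V} [G.LocallyFinite] (β : ℝ)
    (J : Coupling G) : Prop :=
  ∃ π : Measure (V → Bool), IsGibbs β J π ∧ IsGibbs β J (π.map fun σ x => !σ x) ∧
    π ≠ π.map fun σ x => !σ x

/-- The law on `{1, -1}` with mean `m`. -/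
noncomputable def biased (m : ℝ) : Measure ℝ :=
  ENNReal.ofReal ((1 + m) / 2) • Measure.dirac 1 + ENNReal.ofReal ((1 - m) / 2) • Measure.dirac (-1)

theorem biased_prob {m : ℝ} (h0 : -1 ≤ m) (h1 : m ≤ 1) : IsProbabilityMeasure (biased m) := by
  constructor
  unfold biased
  simp only [Measure.add_apply, Measure.smul_apply, measure_univ, smul_eq_mul, mul_one]
  rw [← ENNReal.ofReal_add (by linarith) (by linarith), ← ENNReal.ofReal_one]
  congr 1
  ring

theorem biased_integral {m : ℝ} (h0 : -1 ≤ m) (h1 : m ≤ 1) (f : ℝ → ℝ) :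
    ∫ y, f y ∂(biased m) = (1 + m) / 2 * f 1 + (1 - m) / 2 * f (-1) := by
  unfold biased
  have i1 : Integrable f (ENNReal.ofReal ((1 + m) / 2) • Measure.dirac 1) :=
    (integrable_dirac (by simp)).smul_measure ENNReal.ofReal_ne_top
  have i2 : Integrable f (ENNReal.ofReal ((1 - m) / 2) • Measure.dirac (-1)) :=
    (integrable_dirac (by simp)).smul_measure ENNReal.ofReal_ne_top
  rw [integral_add_measure i1 i2, integral_smul_measure, integral_smul_measure, integral_dirac,
    integral_dirac, ENNReal.toReal_ofReal (by linarith), ENNReal.toReal_ofReal (by linarith)]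
  simp

theorem exp_ratio (β : ℝ) :
    Real.exp (-(2 * β)) * ((1 + Real.tanh β) / 2) = (1 - Real.tanh β) / 2 := by
  have h := exp_tanh β
  linear_combination h / 2

theorem biased_nishimori (β : ℝ) : Nishimori β (biased (Real.tanh β)) := by
  have h1 := abs_le.mp (abs_tanh_le_one β)
  have hm : Measurable fun x : ℝ => -x := measurable_neg
  unfold Nishimori biased
  ext A hA
  rw [Measure.map_apply hm hA, withDensity_apply _ hA, ← lintegral_indicator hA,
    lintegral_add_measure, lintegral_smul_measure, lintegral_smul_measure,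
    lintegral_dirac' _ ((measurable_rho β).indicator hA),
    lintegral_dirac' _ ((measurable_rho β).indicator hA)]
  simp only [Measure.add_apply, Measure.smul_apply, smul_eq_mul]
  rw [Measure.dirac_apply' _ (hm hA), Measure.dirac_apply' _ (hm hA)]
  have e1 : ENNReal.ofReal ((1 + Real.tanh β) / 2) * ENNReal.ofReal (Real.exp (-(2 * β * 1))) =
      ENNReal.ofReal ((1 - Real.tanh β) / 2) := by
    rw [← ENNReal.ofReal_mul (by linarith), mul_one, mul_comm, exp_ratio]
  have e2 : ENNReal.ofReal ((1 - Real.tanh β) / 2) * ENNReal.ofReal (Real.exp (-(2 * β * -1))) =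
      ENNReal.ofReal ((1 + Real.tanh β) / 2) := by
    rw [← ENNReal.ofReal_mul (by linarith)]
    congr 1
    rw [← exp_ratio β, mul_assoc, mul_comm ((1 + Real.tanh β) / 2), ← mul_assoc, ← Real.exp_add]
    have : -(2 * β) + -(2 * β * -1) = 0 := by ring
    rw [this, Real.exp_zero, one_mul]
  by_cases ha : (1 : ℝ) ∈ A
  · by_cases hb : (-1 : ℝ) ∈ A
    · have ha' : (-1 : ℝ) ∈ (fun x : ℝ => -x) ⁻¹' A := by simpa using ha
      have hb' : (1 : ℝ) ∈ (fun x : ℝ => -x) ⁻¹' A := by simpa using hb
      rw [Set.indicator_of_mem ha, Set.indicator_of_mem hb, Set.indicator_of_mem ha',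
        Set.indicator_of_mem hb', e1, e2]
      simp only [Pi.one_apply, mul_one]
      exact add_comm _ _
    · have ha' : (-1 : ℝ) ∈ (fun x : ℝ => -x) ⁻¹' A := by simpa using ha
      have hb' : (1 : ℝ) ∉ (fun x : ℝ => -x) ⁻¹' A := by simpa using hb
      rw [Set.indicator_of_mem ha, Set.indicator_of_notMem hb, Set.indicator_of_mem ha',
        Set.indicator_of_notMem hb', e1]
      simp
  · by_cases hb : (-1 : ℝ) ∈ A
    · have ha' : (-1 : ℝ) ∉ (fun x : ℝ => -x) ⁻¹' A := by simpa using ha
      have hb' : (1 : ℝ) ∈ (fun x : ℝ => -x) ⁻¹' A := by simpa using hb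
      rw [Set.indicator_of_notMem ha, Set.indicator_of_mem hb, Set.indicator_of_notMem ha',
        Set.indicator_of_mem hb', e2]
      simp
    · have ha' : (-1 : ℝ) ∉ (fun x : ℝ => -x) ⁻¹' A := by simpa using ha
      have hb' : (1 : ℝ) ∉ (fun x : ℝ => -x) ⁻¹' A := by simpa using hb
      rw [Set.indicator_of_notMem ha, Set.indicator_of_notMem hb, Set.indicator_of_notMem ha',
        Set.indicator_of_notMem hb']

/-- (1) independent couplings whose laws, not necessarily equal, satisfy Nishimori's condition at `β`
and `E tanh (β J) ≥ 1 / (d - 1)`; (2) in particular independent couplings `±1` with mean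
`m = tanh β ≥ 1 / √(d - 1)`. -/
theorem result (d : ℕ) (hd : 12 ≤ d) (β : ℝ) :
    (∀ (ν : (lat d).edgeSet → Measure ℝ) [∀ e, IsProbabilityMeasure (ν e)],
      (∀ e, (ν e).map (fun x => -x) =
        (ν e).withDensity fun x => ENNReal.ofReal (Real.exp (-(2 * β * x)))) →
      (∀ e, 1 / ((d : ℝ) - 1) ≤ ∫ x, Real.tanh (β * x) ∂(ν e)) →
      ∀ᵐ J ∂(Measure.infinitePi ν), SymmetryBroken β J) ∧
    (1 / √((d : ℝ) - 1) ≤ Real.tanh β →
      ∀ᵐ J ∂(Measure.infinitePi fun _ : (lat d).edgeSet => biased (Real.tanh β)),
        SymmetryBroken β J) := by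
  have hd' : (12 : ℝ) ≤ d := by exact_mod_cast hd
  refine ⟨fun ν _ h1 h2 => main_nishimori hd β ν h1 h2, fun hm => ?_⟩
  have h1 := abs_le.mp (abs_tanh_le_one β)
  have hprob : ∀ _ : (lat d).edgeSet, IsProbabilityMeasure (biased (Real.tanh β)) := fun _ =>
    biased_prob h1.1 h1.2
  refine @main_nishimori d hd β (fun _ => biased (Real.tanh β)) hprob
    (fun _ => biased_nishimori β) fun _ => ?_
  rw [biased_integral h1.1 h1.2, mul_one, mul_neg_one, Real.tanh_neg]
  have h3 : 0 ≤ 1 / √((d : ℝ) - 1) := by positivity
  have h4 : (1 / √((d : ℝ) - 1)) ^ 2 ≤ Real.tanh β ^ 2 := pow_le_pow_left₀ h3 hm 2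
  rw [div_pow, one_pow, Real.sq_sqrt (by linarith)] at h4
  linarith

end Pool.Agent.Results.MP_81d17b_pr.NishimoriLine
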