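import Pool.Agent.T9h81.HL.PlaneS

/-!
# The Edwards–Anderson model with symmetric couplings in `m` directions and weakly biased
# couplings in `k` directions

`ℤ^(k+m)`, independent couplings.  In the `k`-dimensional coordinate planes (all of them, or some
of them) the couplings have mean at least `b ≥ C (√(log k / k) + √m log k / k)`; on the bonds
leaving these planes they are symmetric with values in `[-1, 1]`.  At low temperature there are
almost surely several Gibbs states, and infinitely many linearly independent ones if there are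
infinitely many planes.
-/

set_option autoImplicit false

open MeasureTheory ProbabilityTheory Filter Topology
open scoped Classical ENNReal

namespace Pool.Agent.Results.MP_81d17b_pr.SymmetricDirections

open Pool.T9h81.EAR Pool.T9h81.HL

/-- Some Gibbs state at `(β, J)` is not invariant under the global spin flip `σ ↦ -σ` (its image,
which is again a Gibbs state, is different); in particular there is more than one Gibbs state. -/
def SymmetryBroken {V : Type} {G : SimpleGraph V} [G.LocallyFinite] (β : ℝ)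
    (J : Coupling G) : Prop :=
  ∃ π : Measure (V → Bool), IsGibbs β J π ∧ IsGibbs β J (π.map fun σ x => !σ x) ∧
    π ≠ π.map fun σ x => !σ x

/-- For every `r` there are `r` linearly independent Gibbs states at `(β, J)`. -/
def InfiniteDimensional {V : Type} {G : SimpleGraph V} [G.LocallyFinite] (β : ℝ)
    (J : Coupling G) : Prop :=
  ∀ r : ℕ, ∃ π : Fin r → Measure (V → Bool), (∀ a, IsGibbs β J (π a)) ∧
    ∀ c : Fin r → ℝ, (∀ A, MeasurableSet A → ∑ a, c a * (π a A).toReal = 0) → c = 0

/-- The law on `ℝ` with mass `p` at `h + 1` and mass `1 - p` at `h - 1`. -/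
noncomputable def twoPoint (p h : ℝ) : Measure ℝ :=
  ENNReal.ofReal p • Measure.dirac (h + 1) + ENNReal.ofReal (1 - p) • Measure.dirac (h - 1)

/-- The bond `e` of `ℤ^(k+m)` is parallel to one of the first `k` coordinate axes. -/
def Horizontal (k m : ℕ) (e : (lat (k + m)).edgeSet) : Prop :=
  ∀ x ∈ e.1, ∀ y ∈ e.1, ∀ j : Fin m, x (Fin.natAdd k j) = y (Fin.natAdd k j)

/-- The law of the coupling of the bond `e`: `h ± 1` with probabilities `p`, `1 - p` in the first
`k` directions, `± 1` with probability `1/2` in the other `m` directions. -/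
noncomputable def dirLaw (k m : ℕ) (p h : ℝ) (e : (lat (k + m)).edgeSet) : Measure ℝ :=
  if Horizontal k m e then twoPoint p h else twoPoint (1 / 2) 0

theorem twoPoint_prob {p h : ℝ} (h0 : 0 ≤ p) (h1 : p ≤ 1) : IsProbabilityMeasure (twoPoint p h) := by
  constructor
  unfold twoPoint
  simp only [Measure.add_apply, Measure.smul_apply, measure_univ, smul_eq_mul, mul_one]
  rw [← ENNReal.ofReal_add h0 (by linarith)]
  simp

theorem twoPoint_integral {p h : ℝ} (h0 : 0 ≤ p) (h1 : p ≤ 1) (f : ℝ → ℝ) :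
    ∫ y, f y ∂(twoPoint p h) = p * f (h + 1) + (1 - p) * f (h - 1) := by
  unfold twoPoint
  have i1 : Integrable f (ENNReal.ofReal p • Measure.dirac (h + 1)) :=
    (integrable_dirac (by simp)).smul_measure ENNReal.ofReal_ne_top
  have i2 : Integrable f (ENNReal.ofReal (1 - p) • Measure.dirac (h - 1)) :=
    (integrable_dirac (by simp)).smul_measure ENNReal.ofReal_ne_top
  rw [integral_add_measure i1 i2, integral_smul_measure, integral_smul_measure, integral_dirac,
    integral_dirac, ENNReal.toReal_ofReal h0, ENNReal.toReal_ofReal (by linarith)]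
  simp

theorem twoPoint_subg {p h : ℝ} (h0 : 0 ≤ p) (h1 : p ≤ 1) :
    HasSubgaussianMGF (fun y => y - ∫ z, z ∂(twoPoint p h)) 1 (twoPoint p h) := by
  have hp := twoPoint_prob (h := h) h0 h1
  have h2 : HasSubgaussianMGF (fun y : ℝ => y - (twoPoint p h)[fun y : ℝ => y])
      ((‖(h + 1) - (h - 1)‖₊ / 2) ^ 2) (twoPoint p h) := by
    apply hasSubgaussianMGF_of_mem_Icc aemeasurable_id
    unfold twoPoint
    rw [ae_add_measure_iff]
    constructor
    · refine Measure.ae_smul_measure ?_ _
      rw [ae_dirac_eq]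
      show h + 1 ∈ Set.Icc (h - 1) (h + 1)
      exact ⟨by linarith, le_rfl⟩
    · refine Measure.ae_smul_measure ?_ _
      rw [ae_dirac_eq]
      show h - 1 ∈ Set.Icc (h - 1) (h + 1)
      exact ⟨le_rfl, by linarith⟩
  have h3 : ((‖(h + 1) - (h - 1)‖₊ / 2) ^ 2 : NNReal) = 1 := by
    have h4 : ‖(h + 1) - (h - 1)‖₊ = 2 := by
      apply NNReal.eq
      have h5 : (h + 1) - (h - 1) = 2 := by ring
      rw [h5]
      simp
    rw [h4]
    simp
  rw [h3] at h2
  exact h2

theorem half_symm : (twoPoint (1 / 2) 0).map (fun y => -y) = twoPoint (1 / 2) 0 := by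
  unfold twoPoint
  rw [Measure.map_add _ _ measurable_neg, Measure.map_smul, Measure.map_smul,
    Measure.map_dirac, Measure.map_dirac, add_comm]
  norm_num

theorem half_bounded : ∀ᵐ y ∂(twoPoint (1 / 2) 0), |y| ≤ 1 := by
  unfold twoPoint
  rw [ae_add_measure_iff]
  constructor
  · refine Measure.ae_smul_measure ?_ _
    rw [ae_dirac_eq]
    show |(0 : ℝ) + 1| ≤ 1
    norm_num
  · refine Measure.ae_smul_measure ?_ _
    rw [ae_dirac_eq]
    show |(0 : ℝ) - 1| ≤ 1
    norm_num

theorem dirLaw_prob {k m : ℕ} {p h : ℝ} (h0 : 0 ≤ p) (h1 : p ≤ 1)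
    (e : (lat (k + m)).edgeSet) : IsProbabilityMeasure (dirLaw k m p h e) := by
  unfold dirLaw
  split_ifs
  · exact twoPoint_prob h0 h1
  · exact twoPoint_prob (by norm_num) (by norm_num)

theorem dirLaw_planes {k m : ℕ} {p h b : ℝ} (h0 : 0 ≤ p) (h1 : p ≤ 1) (hb : b ≤ h + 2 * p - 1) :
    BiasedPlaneLaws k m Set.univ b (dirLaw k m p h) := by
  intro v _ e
  constructor
  · intro hin
    have hH : Horizontal k m e := fun x hx y hy j => (hin x hx j).trans (hin y hy j).symm
    unfold dirLaw
    rw [if_pos hH]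
    refine ⟨?_, twoPoint_subg h0 h1⟩
    rw [twoPoint_integral h0 h1 (fun y => y)]
    linarith
  · rintro ⟨x, hx, hxv⟩ ⟨y, hy, hyv⟩
    have hH : ¬ Horizontal k m e := by
      intro hH
      apply hyv
      intro j
      exact (hH y hy x hx j).trans (hxv j)
    unfold dirLaw
    rw [if_neg hH]
    exact ⟨half_symm, half_bounded⟩

/-- the number of biased directions sufficient for the bias `1` -/
theorem exists_A (ε : ℝ) (hε : 0 < ε) : ∃ A : ℝ, 3 ≤ A ∧ ∀ k m : ℕ, 1 ≤ m →
    A * (√m * Real.log (m + 2)) ≤ k →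
    3 ≤ k ∧ √(Real.log k / k) + √m * (Real.log k / k) ≤ ε := by
  have ht : Tendsto (fun x : ℝ => (Real.log x + 3 / 2) / x) atTop (𝓝 0) := by
    have h1 : Tendsto (fun x : ℝ => Real.log x / x) atTop (𝓝 0) := by
      have := Real.isLittleO_log_id_atTop.tendsto_div_nhds_zero
      exact this
    have h2 : Tendsto (fun x : ℝ => (3 / 2 : ℝ) / x) atTop (𝓝 0) :=
      tendsto_const_nhds.div_atTop tendsto_id
    have h3 := h1.add h2
    rw [add_zero] at h3
    refine h3.congr fun x => ?_
    rw [add_div]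
  obtain ⟨A, hA1, hA2, hA3⟩ := ((ht.eventually (gt_mem_nhds (show 0 < ε / 2 by linarith))).and
    ((ht.eventually (gt_mem_nhds (show 0 < (ε / 2) ^ 2 by positivity))).and
      (eventually_ge_atTop (3 : ℝ)))).exists
  refine ⟨A, hA3, ?_⟩
  intro k m hm hk
  have hmr : (1 : ℝ) ≤ m := by exact_mod_cast hm
  have hA0 : 0 < A := by linarith
  have hsm : 1 ≤ √(m : ℝ) := by
    rw [← Real.sqrt_one]
    exact Real.sqrt_le_sqrt hmr
  have he : Real.exp 1 ≤ 3 := by
    have := Real.exp_one_lt_d9
    linarith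
  set l : ℝ := Real.log ((m : ℝ) + 2) with hl
  have hl1 : 1 ≤ l := by
    rw [hl, ← Real.log_exp 1]
    exact Real.log_le_log (Real.exp_pos _) (by linarith)
  set y : ℝ := A * (√(m : ℝ) * l) with hy
  have hyA : A ≤ y := by
    have h1 : 1 ≤ √(m : ℝ) * l := by nlinarith
    nlinarith
  have hy3 : 3 ≤ y := hA3.trans hyA
  have hk3 : (3 : ℝ) ≤ k := hy3.trans hk
  refine ⟨by exact_mod_cast hk3, ?_⟩
  have h1 : Real.log k / k ≤ Real.log y / y :=
    Real.log_div_self_antitoneOn (show Real.exp 1 ≤ y by linarith)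
      (show Real.exp 1 ≤ (k : ℝ) by linarith) hk
  have hlA : 0 ≤ Real.log A := Real.log_nonneg (by linarith)
  have h2 : Real.log y ≤ (Real.log A + 3 / 2) * l := by
    have h3 : Real.log y = Real.log A + (Real.log √(m : ℝ) + Real.log l) := by
      rw [hy, Real.log_mul hA0.ne' (by positivity), Real.log_mul (by positivity) (by positivity)]
    have h4 : Real.log √(m : ℝ) ≤ l / 2 := by
      rw [Real.log_sqrt (by linarith)]
      apply div_le_div_of_nonneg_right _ (by norm_num)
      exact Real.log_le_log (by linarith) (by linarith)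
    have h5 : Real.log l ≤ l := (Real.log_le_sub_one_of_pos (by linarith)).trans (by linarith)
    have h6 : Real.log A ≤ Real.log A * l := le_mul_of_one_le_right hlA hl1
    rw [h3]
    linarith
  have h3 : √(m : ℝ) * (Real.log k / k) ≤ (Real.log A + 3 / 2) / A := by
    calc √(m : ℝ) * (Real.log k / k) ≤ √(m : ℝ) * (((Real.log A + 3 / 2) * l) / y) := by
          apply mul_le_mul_of_nonneg_left _ (by positivity)
          exact h1.trans (div_le_div_of_nonneg_right h2 (by linarith))
      _ = (Real.log A + 3 / 2) / A := by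
          rw [hy]
          have h4 : √(m : ℝ) ≠ 0 := by positivity
          field_simp
  have hL0 : 0 ≤ Real.log k / (k : ℝ) := div_nonneg (Real.log_nonneg (by linarith)) (by linarith)
  have h4 : Real.log k / (k : ℝ) ≤ (Real.log A + 3 / 2) / A :=
    (le_mul_of_one_le_left hL0 hsm).trans h3
  have h5 : √(Real.log k / (k : ℝ)) ≤ ε / 2 := by
    rw [← Real.sqrt_sq (show 0 ≤ ε / 2 by linarith)]
    exact Real.sqrt_le_sqrt (h4.trans hA2.le)
  linarith

/-- There is an absolute constant `C > 0` for which the following holds.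

(1) Let `k ≥ 3`, `m ≥ 1`, `b ≥ C (√(log k / k) + √m log k / k)` and `β b ≥ 82 log k / k`.
(a) Let `𝒱 ⊆ ℤ^m` and let the couplings of `ℤ^(k+m)` be independent, with mean at least `b` and
sub-Gaussian fluctuations (variance proxy `1`) on the bonds inside the planes `ℤ^k × {v}`,
`v ∈ 𝒱`, symmetric with values in `[-1, 1]` on the bonds with exactly one endpoint in such a plane,
and with arbitrary laws on the other bonds.  Almost surely the spin-flip symmetry is broken if
`𝒱 ≠ ∅`, and there are infinitely many linearly independent Gibbs states if `𝒱` is infinite.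
(b) In particular for independent couplings which are `h ± 1` with probabilities `p` and `1 - p` in
the first `k` directions, `h + 2 p - 1 ≥ b`, and `± 1` with probability `1/2` in the other ones.

(2) If `k ≥ C √m log (m + 2)` and `β ≥ 82 log k / k`, this is true for couplings equal to `1` in `k`
directions and to independent fair signs in the `m` other ones. -/
theorem result : ∃ C : ℝ, 0 < C ∧
    (∀ k m : ℕ, 3 ≤ k → 1 ≤ m → ∀ b β : ℝ,
      C * (√(Real.log k / k) + √m * (Real.log k / k)) ≤ b → 82 * (Real.log k / k) ≤ β * b →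
      (∀ (𝒱 : Set (Site m)) (ν : (lat (k + m)).edgeSet → Measure ℝ)
        [∀ e, IsProbabilityMeasure (ν e)], BiasedPlaneLaws k m 𝒱 b ν →
        (𝒱.Nonempty → ∀ᵐ J ∂(Measure.infinitePi ν), SymmetryBroken β J) ∧
        (𝒱.Infinite → ∀ᵐ J ∂(Measure.infinitePi ν), InfiniteDimensional β J)) ∧
      (∀ p h : ℝ, 0 ≤ p → p ≤ 1 → b ≤ h + 2 * p - 1 →
        ∀ᵐ J ∂(Measure.infinitePi (dirLaw k m p h)),
          SymmetryBroken β J ∧ InfiniteDimensional β J)) ∧
    (∀ k m : ℕ, 1 ≤ m → C * (√m * Real.log (m + 2)) ≤ k → ∀ β : ℝ, 82 * (Real.log k / k) ≤ β →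
      ∀ᵐ J ∂(Measure.infinitePi (dirLaw k m 1 0)),
        SymmetryBroken β J ∧ InfiniteDimensional β J) := by
  have hC2 := C2_pos
  obtain ⟨A, hA3, hA⟩ := exists_A (1 / C2) (by positivity)
  have gen : ∀ k m : ℕ, 3 ≤ k → 1 ≤ m → ∀ b β : ℝ,
      C2 * (√(Real.log k / k) + √m * (Real.log k / k)) ≤ b → 82 * (Real.log k / k) ≤ β * b →
      (∀ (𝒱 : Set (Site m)) (ν : (lat (k + m)).edgeSet → Measure ℝ)
        [∀ e, IsProbabilityMeasure (ν e)], BiasedPlaneLaws k m 𝒱 b ν →
        (𝒱.Nonempty → ∀ᵐ J ∂(Measure.infinitePi ν), SymmetryBroken β J) ∧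
        (𝒱.Infinite → ∀ᵐ J ∂(Measure.infinitePi ν), InfiniteDimensional β J)) ∧
      (∀ p h : ℝ, 0 ≤ p → p ≤ 1 → b ≤ h + 2 * p - 1 →
        ∀ᵐ J ∂(Measure.infinitePi (dirLaw k m p h)),
          SymmetryBroken β J ∧ InfiniteDimensional β J) := by
    intro k m hk hm b β hb hβ
    have h1 : ∀ (𝒱 : Set (Site m)) (ν : (lat (k + m)).edgeSet → Measure ℝ)
        [∀ e, IsProbabilityMeasure (ν e)], BiasedPlaneLaws k m 𝒱 b ν →
        (𝒱.Nonempty → ∀ᵐ J ∂(Measure.infinitePi ν), SymmetryBroken β J) ∧
        (𝒱.Infinite → ∀ᵐ J ∂(Measure.infinitePi ν), InfiniteDimensional β J) := by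
      intro 𝒱 ν _ hlaw
      exact ⟨fun h => broken_pl hk hm b hb β hβ h hlaw, fun h => indep_pl hk hm b hb β hβ h hlaw⟩
    refine ⟨h1, fun p h h0 h1' hp => ?_⟩
    have hprob : ∀ e, IsProbabilityMeasure (dirLaw k m p h e) := dirLaw_prob h0 h1'
    obtain ⟨h2, h3⟩ := h1 Set.univ (dirLaw k m p h) (dirLaw_planes h0 h1' hp)
    have hne : Nonempty (Fin m) := ⟨⟨0, by omega⟩⟩
    have hinf : (Set.univ : Set (Site m)).Infinite := by
      have : Infinite (Site m) := by
        unfold Site
        infer_instance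
      exact Set.infinite_univ
    filter_upwards [h2 ⟨0, Set.mem_univ _⟩, h3 hinf] with J hJ1 hJ2
    exact ⟨hJ1, hJ2⟩
  refine ⟨max C2 A, lt_of_lt_of_le hC2 (le_max_left _ _), ?_, ?_⟩
  · intro k m hk hm b β hb hβ
    have hkr : (3 : ℝ) ≤ k := by exact_mod_cast hk
    have hlog := log_ge_one hk
    have h1 : 0 ≤ √(Real.log k / k) + √(m : ℝ) * (Real.log k / k) := by positivity
    exact gen k m hk hm b β ((mul_le_mul_of_nonneg_right (le_max_left _ _) h1).trans hb) hβ
  · intro k m hm hk β hβ
    have hmr : (1 : ℝ) ≤ m := by exact_mod_cast hm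
    have h1 : 0 ≤ √(m : ℝ) * Real.log (m + 2) :=
      mul_nonneg (Real.sqrt_nonneg _) (Real.log_nonneg (by linarith))
    obtain ⟨hk3, h2⟩ := hA k m hm ((mul_le_mul_of_nonneg_right (le_max_right _ _) h1).trans hk)
    have h3 : C2 * (√(Real.log k / k) + √(m : ℝ) * (Real.log k / k)) ≤ 1 := by
      have h4 := mul_le_mul_of_nonneg_left h2 hC2.le
      rwa [mul_one_div_cancel hC2.ne'] at h4
    exact (gen k m hk3 hm 1 β h3 (by linarith)).2 1 0 (by norm_num) le_rfl (by norm_num)

end Pool.Agent.Results.MP_81d17b_pr.SymmetricDirections
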