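import Pool.Agent.T9h81.EA.Product

/-!
# Symmetric `±1` couplings on graphs containing a dense forest, e.g. (tree) × `ℤ^d`

Independent fair signs on the edges of a graph `G` of maximal degree `Δ` which contains a forest
with all degrees at least `8 √(Δ log Δ)`: almost surely, for all `β ≥ √(log Δ / Δ)`, the global
spin-flip symmetry is broken, and there are infinitely many Gibbs states far from each other if the
forest has infinitely many components.  In particular this holds for products `T □ H` of a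
`k`-regular tree with an infinite graph `H` of maximal degree `D` (for instance `H = ℤ^d`,
`D = 2d`) as soon as `k ≥ C √(D log D)`.
-/

set_option autoImplicit false

open MeasureTheory
open scoped Classical

namespace Pool.Agent.Results.MP_81d17b_pr.TreeTimesLattice

open Pool.T9h81.EA

/-- Some Gibbs state at `(β, J)` is not invariant under the global spin flip `σ ↦ -σ` (its image,
which is again a Gibbs state, is different); in particular there is more than one Gibbs state. -/
def SymmetryBroken {V : Type} {G : SimpleGraph V} [G.LocallyFinite] (β : ℝ)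
    (J : Coupling G) : Prop :=
  ∃ π : Measure (V → Bool), IsGibbs β J π ∧ IsGibbs β J (π.map fun σ x => !σ x) ∧
    π ≠ π.map fun σ x => !σ x

/-- There are infinitely many Gibbs states at `(β, J)` which are pairwise far from each other in
the law of some single spin, and the Gibbs states at `(β, J)` are not all convex combinations of
finitely many probability measures. -/
def InfinitelyMany {V : Type} {G : SimpleGraph V} [G.LocallyFinite] (β : ℝ)
    (J : Coupling G) : Prop :=
  (∃ π : ℕ → Measure (V → Bool), (∀ n, IsGibbs β J (π n)) ∧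
    ∀ m n, m ≠ n → ∃ x, 3 / 4 ≤ |(π m).real {σ | σ x = true} - (π n).real {σ | σ x = true}|) ∧
  ∀ (r : ℕ) (μ : Fin r → Measure (V → Bool)), (∀ i, IsProbabilityMeasure (μ i)) →
    ∃ π : Measure (V → Bool), IsGibbs β J π ∧
      ¬ ∃ c : Fin r → NNReal, ∑ i, c i = 1 ∧ π = ∑ i, c i • μ i

theorem main (V : Type) [Countable V] [Nonempty V] (G F : SimpleGraph V) [G.LocallyFinite]
    [F.LocallyFinite] (k Δ : ℕ) (hFG : F ≤ G) (hF : F.IsAcyclic) (hk : ∀ x, k ≤ F.degree x)
    (hΔ : ∀ x, G.degree x ≤ Δ) (h2 : 2 ≤ Δ) (hkΔ : 8 * √(Δ * Real.log Δ) ≤ k) :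
    ∀ᵐ J ∂(couplingLaw G), ∀ β : ℝ, √(Real.log Δ / Δ) ≤ β →
      SymmetryBroken β J ∧ (Infinite F.ConnectedComponent → InfinitelyMany β J) := by
  obtain ⟨hk3, hk32, hβ⟩ := num1 h2 hkΔ
  by_cases hinf : Infinite F.ConnectedComponent
  · filter_upwards [main_forest F hF hFG hk hΔ h2 hk3 hk32,
      main_forest_inf F hF hFG hk hΔ h2 hk3 hk32 hinf] with J hJ hJ2 β hβ'
    refine ⟨hJ β (hβ β hβ'), fun _ => ?_⟩
    obtain ⟨π, hπ, hfar⟩ := hJ2 β (hβ β hβ')
    refine ⟨⟨π, hπ, hfar⟩, fun r μ hμ => ?_⟩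
    obtain ⟨n, hn⟩ := not_finite_dim π (fun m n hmn => by
      obtain ⟨x, hx⟩ := hfar m n hmn
      exact ⟨_, hx⟩) r μ hμ
    exact ⟨π n, hπ n, hn⟩
  · filter_upwards [main_forest F hF hFG hk hΔ h2 hk3 hk32] with J hJ β hβ'
    exact ⟨hJ β (hβ β hβ'), fun h => absurd h hinf⟩

/-- (1) general graphs containing a dense forest `F`; (2) products of a regular tree with an
arbitrary infinite graph of bounded degree. -/
theorem result :
    (∀ (V : Type) [Countable V] [Nonempty V] (G F : SimpleGraph V) [G.LocallyFinite]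
        [F.LocallyFinite] (k Δ : ℕ), F ≤ G → F.IsAcyclic → (∀ x, k ≤ F.degree x) →
        (∀ x, G.degree x ≤ Δ) → 2 ≤ Δ → 8 * √(Δ * Real.log Δ) ≤ k →
        ∀ᵐ J ∂(couplingLaw G), ∀ β : ℝ, √(Real.log Δ / Δ) ≤ β →
          SymmetryBroken β J ∧ (Infinite F.ConnectedComponent → InfinitelyMany β J)) ∧
    (∃ C : ℝ, 0 < C ∧ ∀ (V₁ V₂ : Type) [Countable V₁] [Nonempty V₁] [Countable V₂] [Infinite V₂]
        (T : SimpleGraph V₁) (H : SimpleGraph V₂) [T.LocallyFinite] [H.LocallyFinite] (k D : ℕ),
        T.IsAcyclic → (∀ x, T.degree x = k) → (∀ y, H.degree y ≤ D) → 2 ≤ D →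
        C * √(D * Real.log D) ≤ k →
        ∀ᵐ J ∂(couplingLaw (T □ H)), ∀ β : ℝ, √(Real.log D / D) ≤ β →
          SymmetryBroken β J ∧ InfinitelyMany β J) := by
  refine ⟨fun V _ _ G F _ _ k Δ h1 h2 h3 h4 h5 h6 => main V G F k Δ h1 h2 h3 h4 h5 h6,
    2 ^ 18, by positivity, ?_⟩
  intro V₁ V₂ _ _ _ _ T H _ _ k D hT hk hD h2 hkD
  obtain ⟨n1, n2⟩ := num2 h2 hkD
  have hne : Nonempty V₂ := inferInstance
  have hcomp : Infinite (sheets T V₂).ConnectedComponent := sheets_components T
  have h := main (V₁ × V₂) (T □ H) (sheets T V₂) k (k + D) (sheets_le T H) (sheets_acyclic T hT)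
    (fun p => (hk p.1).symm.le.trans (sheets_degree T p))
    (fun p => by
      rw [SimpleGraph.degree_boxProd, hk]
      exact Nat.add_le_add_left (hD p.2) k)
    (by omega) n1
  filter_upwards [h] with J hJ β hβ
  obtain ⟨a, b⟩ := hJ β (n2.trans hβ)
  exact ⟨a, b hcomp⟩

end Pool.Agent.Results.MP_81d17b_pr.TreeTimesLattice
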