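import Pool.Agent.T9h81.EAR.MeanMain

/-!
# `ℤ^d` with independent couplings whose mean is of order `√(log d / d)`

For independent couplings on `ℤ^d` with sub-Gaussian fluctuations of order one and mean at least
`m ≥ 18 √(log d / d)`, almost surely there is more than one Gibbs state for all
`β ≥ 38 log d / (d m)`.  This includes the `±1` couplings with `P(J = 1) = (1 + m) / 2`, and the
symmetric `±1` couplings of the Edwards–Anderson model plus a deterministic coupling `h = m`.
-/

set_option autoImplicit false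

open MeasureTheory ProbabilityTheory
open scoped ENNReal

namespace Pool.Agent.Results.MP_81d17b_pr.WeaklyBiasedLattice

open Pool.T9h81.EAR

/-- Some Gibbs state at `(β, J)` is not invariant under the global spin flip `σ ↦ -σ` (its image,
which is again a Gibbs state, is different); in particular there is more than one Gibbs state. -/
def SymmetryBroken {V : Type} {G : SimpleGraph V} [G.LocallyFinite] (β : ℝ)
    (J : Coupling G) : Prop :=
  ∃ π : Measure (V → Bool), IsGibbs β J π ∧ IsGibbs β J (π.map fun σ x => !σ x) ∧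
    π ≠ π.map fun σ x => !σ x

/-- The law on `ℝ` with mass `p` at `h + 1` and mass `1 - p` at `h - 1`. -/
noncomputable def twoPoint (p h : ℝ) : Measure ℝ :=
  ENNReal.ofReal p • Measure.dirac (h + 1) + ENNReal.ofReal (1 - p) • Measure.dirac (h - 1)

theorem twoPoint_prob {p h : ℝ} (h0 : 0 ≤ p) (h1 : p ≤ 1) : IsProbabilityMeasure (twoPoint p h) := by
  constructor
  unfold twoPoint
  simp only [Measure.add_apply, Measure.smul_apply, measure_univ, smul_eq_mul, mul_one]
  rw [← ENNReal.ofReal_add h0 (by linarith)]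
  simp

theorem twoPoint_integral {p h : ℝ} (h0 : 0 ≤ p) (h1 : p ≤ 1) (f : ℝ → ℝ) :
    ∫ y, f y ∂(twoPoint p h) = p * f (h + 1) + (1 - p) * f (h - 1) := by
  unfold twoPoint
  have i1 : Integrable f (ENNReal.ofReal p • Measure.dirac (h + 1)) :=
    (integrable_dirac (by simp)).smul_measure ENNReal.ofReal_ne_top
  have i2 : Integrable f (ENNReal.ofReal (1 - p) • Measure.dirac (h - 1)) :=
    (integrable_dirac (by simp)).smul_measure ENNReal.ofReal_ne_top
  rw [integral_add_measure i1 i2, integral_smul_measure, integral_smul_measure, integral_dirac,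
    integral_dirac, ENNReal.toReal_ofReal h0, ENNReal.toReal_ofReal (by linarith)]
  simp

theorem twoPoint_subg {p h : ℝ} (h0 : 0 ≤ p) (h1 : p ≤ 1) :
    HasSubgaussianMGF (fun y => y - ∫ z, z ∂(twoPoint p h)) 1 (twoPoint p h) := by
  have hp := twoPoint_prob (h := h) h0 h1
  have h2 : HasSubgaussianMGF (fun y : ℝ => y - (twoPoint p h)[fun y : ℝ => y])
      ((‖(h + 1) - (h - 1)‖₊ / 2) ^ 2) (twoPoint p h) := by
    apply hasSubgaussianMGF_of_mem_Icc aemeasurable_id
    unfold twoPoint
    rw [ae_add_measure_iff]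
    constructor
    · refine Measure.ae_smul_measure ?_ _
      rw [ae_dirac_eq]
      show h + 1 ∈ Set.Icc (h - 1) (h + 1)
      exact ⟨by linarith, le_rfl⟩
    · refine Measure.ae_smul_measure ?_ _
      rw [ae_dirac_eq]
      show h - 1 ∈ Set.Icc (h - 1) (h + 1)
      exact ⟨le_rfl, by linarith⟩
  have h3 : ((‖(h + 1) - (h - 1)‖₊ / 2) ^ 2 : NNReal) = 1 := by
    have h4 : ‖(h + 1) - (h - 1)‖₊ = 2 := by
      apply NNReal.eq
      have h5 : (h + 1) - (h - 1) = 2 := by ring
      rw [h5]
      simp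
    rw [h4]
    simp
  rw [h3] at h2
  exact h2

theorem main (d : ℕ) (hd : 2 ≤ d) (m : ℝ) (hm : 18 * √(Real.log d / d) ≤ m)
    (ν : (lat d).edgeSet → Measure ℝ) [∀ e, IsProbabilityMeasure (ν e)]
    (hmean : ∀ e, m ≤ ∫ y, y ∂(ν e))
    (hsub : ∀ e, HasSubgaussianMGF (fun y => y - ∫ z, z ∂(ν e)) 1 (ν e)) :
    ∀ᵐ J ∂(Measure.infinitePi ν), ∀ β : ℝ, 38 * Real.log d / (d * m) ≤ β →
      SymmetryBroken β J := by
  have hd' : (2 : ℝ) ≤ d := by exact_mod_cast hd
  have hd0 : (0 : ℝ) < d := by linarith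
  have hlog : 0 < Real.log d := Real.log_pos (by linarith)
  have hm0 : 0 < m := by
    have h1 : 0 < √(Real.log d / d) := Real.sqrt_pos.mpr (by positivity)
    linarith
  filter_upwards [main_mean hd ν m hm hmean hsub] with J hJ β hβ
  apply hJ β
  rw [div_le_iff₀ (by positivity)] at hβ
  rw [← mul_div_assoc, div_le_iff₀ hd0]
  linarith

/-- (1) independent, not necessarily identically distributed couplings with means at least `m`
and sub-Gaussian fluctuations with variance proxy `1`; (2) in particular independent couplings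
with values `h + 1` and `h - 1`, of mean `h + 2 p - 1 ≥ m`. -/
theorem result (d : ℕ) (hd : 2 ≤ d) (m : ℝ) (hm : 18 * √(Real.log d / d) ≤ m) :
    (∀ (ν : (lat d).edgeSet → Measure ℝ) [∀ e, IsProbabilityMeasure (ν e)],
      (∀ e, m ≤ ∫ y, y ∂(ν e)) →
      (∀ e, HasSubgaussianMGF (fun y => y - ∫ z, z ∂(ν e)) 1 (ν e)) →
      ∀ᵐ J ∂(Measure.infinitePi ν), ∀ β : ℝ, 38 * Real.log d / (d * m) ≤ β →
        SymmetryBroken β J) ∧
    (∀ p h : ℝ, 0 ≤ p → p ≤ 1 → m ≤ h + 2 * p - 1 →
      ∀ᵐ J ∂(Measure.infinitePi fun _ : (lat d).edgeSet => twoPoint p h),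
        ∀ β : ℝ, 38 * Real.log d / (d * m) ≤ β → SymmetryBroken β J) := by
  refine ⟨fun ν _ h1 h2 => main d hd m hm ν h1 h2, fun p h hp0 hp1 hmp => ?_⟩
  have hprob : ∀ _ : (lat d).edgeSet, IsProbabilityMeasure (twoPoint p h) := fun _ =>
    twoPoint_prob hp0 hp1
  have hmean : ∀ _ : (lat d).edgeSet, m ≤ ∫ y, y ∂(twoPoint p h) := by
    intro _
    rw [twoPoint_integral hp0 hp1 (fun y => y)]
    linarith
  exact @main d hd m hm (fun _ => twoPoint p h) hprob hmean fun _ => twoPoint_subg hp0 hp1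

end Pool.Agent.Results.MP_81d17b_pr.WeaklyBiasedLattice
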